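import Pool.Agent.Lib.ALL_h26.Def
import Pool.Agent.Lib.D2.FIN2a
import Pool.Agent.Lib.D2.FIN3

/-!
# Project ALL, final forms: the components of dimension `m` with `b m < p`

The parameter `z : Prop` treats two versions at once: `z = True` is the version for zero-dimensional
components, `z = False` that for all components.
-/

set_option autoImplicit false

namespace Pool.Agent.ALLF

open Pool.Agent.LU2 Pool.Agent.LU2G Pool.Agent.LU2H
open Pool.Agent.D2 (CompZD RealCase2 exists_const_of_resDegree compZD_of compGood_of2)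
open Pool.Agent.LUC (DenseIn LUrV fgField_of_fg ascent ascends_lur)

universe u

/-- The real case (`z`: only for the residue field `k`). -/
def RealCaseZ (z : Prop) (b : ℕ → ℕ) (p : ℕ) (k : Type u) [Field k] : Prop :=
  ∀ (K : Type u) [Field K] [Algebra k K], (⊤ : IntermediateField k K).FG →
    ∀ V : ValuationSubring K, (∀ c : k, algebraMap k K c ∈ V) → IsR1 V →
      (z → ∀ f ∈ V, ∃ c : k, V.valuation (f - algebraMap k K c) < 1) →
      ∀ m : ℕ, Algebra.trdeg k K = m → b m < p → LUr k V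

/-- The real case, for all residue fields. -/
def RealCaseFull (b : ℕ → ℕ) (p : ℕ) (k : Type u) [Field k] : Prop :=
  ∀ (K : Type u) [Field K] [Algebra k K], (⊤ : IntermediateField k K).FG →
    ∀ V : ValuationSubring K, (∀ c : k, algebraMap k K c ∈ V) → IsR1 V →
      ∀ m : ℕ, Algebra.trdeg k K = m → b m < p → LUr k V

theorem RealCaseFull.z {z : Prop} {b : ℕ → ℕ} {p : ℕ} {k : Type u} [Field k]
    (h : RealCaseFull b p k) : RealCaseZ z b p k :=
  fun K _ _ hK V hk hV _ m hm hp => h K hK V hk hV m hm hp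

theorem RealCaseAll.z {b : ℕ → ℕ} {p : ℕ} {k : Type u} [Field k]
    (h : RealCaseAll b p k) : RealCaseZ True b p k :=
  fun K _ _ hK V hk hV hres m hm hp => h K hK V hk hV (hres trivial) m hm hp

/-- The component of the valuation ring `V` between `V` and `V₁` has dimension `m` with `b m < p`
(and, if `z`, the residue field `k`). -/
def CompZ (z : Prop) (b : ℕ → ℕ) (p : ℕ) (k : Type u) {K : Type u} [Field k] [Field K] [Algebra k K]
    (V V₁ : ValuationSubring K) : Prop :=
  ∃ (K₁ : Type u) (_ : Field K₁) (_ : Algebra k K₁) (φ : V₁ →+* K₁) (V₂ : ValuationSubring K₁),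
    IsRes (k := k) V V₁ φ V₂ ∧
      (z → ∀ f ∈ V₂, ∃ c : k, V₂.valuation (f - algebraMap k K₁ c) < 1) ∧
      ∃ m : ℕ, Algebra.trdeg k K₁ = m ∧ b m < p

/-- The hypothesis on the rank one components of `V`: defect at most one, or zero-dimensional of
defect at most two, or `CompZ`. -/
def AllComp3 (z : Prop) (b : ℕ → ℕ) (p : ℕ) (k : Type u) {K : Type u} [Field k] [Field K]
    [Algebra k K] (V : ValuationSubring K) : Prop :=
  ∀ V₂ V₁ : ValuationSubring K, V ≤ V₂ → Covers V₂ V₁ →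
    CompLE k V₂ V₁ 1 ∨ CompZD p k V₂ V₁ ∨ CompZ z b p k V₂ V₁

theorem AllComp3.of_le {z : Prop} {b : ℕ → ℕ} {p : ℕ} {k K : Type u} [Field k] [Field K]
    [Algebra k K] {V V₁ : ValuationSubring K} (h : AllComp3 z b p k V) (hle : V ≤ V₁) :
    AllComp3 z b p k V₁ := fun _ _ h₂ hc => h _ _ (hle.trans h₂) hc

/-- The components `CompZ` are good. -/
theorem compGood_ofZ {z : Prop} {b : ℕ → ℕ} (hb : Monotone b) {p : ℕ} {k K : Type u} [Field k]
    [Field K] [Algebra k K] (hreal : RealCaseZ z b p k) {V V₁ : ValuationSubring K}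
    (hcov : Covers V V₁) (hdef : CompZ z b p k V V₁) : CompGood k V V₁ := by
  classical
  obtain ⟨K₁, _, _, φ, V₂, hres, hres0, m, hm, hp⟩ := hdef
  refine ⟨K₁, inferInstance, inferInstance, φ, V₂, hres, fun A hfg hA _ hc => ?_⟩
  have hle : V ≤ V₁ := hcov.1.le
  obtain ⟨L, hL⟩ : ∃ L : IntermediateField k K₁, L = IntermediateField.adjoin k
    {c : K₁ | ∃ a : V₁, (a : K) ∈ A ∧ φ a = c} := ⟨_, rfl⟩
  rw [← hL]
  have hLfg : L.FG := hL ▸ adjoin_res_fg hres hfg hA
  have hLtop : (⊤ : IntermediateField k L).FG := by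
    rw [← IntermediateField.essFiniteType_iff] at hLfg
    rw [IntermediateField.fg_top_iff]
    exact hLfg
  have hfin₁ : Algebra.trdeg k K₁ < Cardinal.aleph0 := by
    rw [hm]
    exact Cardinal.natCast_lt_aleph0
  have hk₂ : ∀ c : k, algebraMap k K₁ c ∈ V₂ := hres.const₂
  have hLle : Algebra.trdeg k L ≤ Algebra.trdeg k K₁ :=
    _root_.trdeg_le_of_injective L.val L.val.injective
  obtain ⟨m', hm'⟩ := Cardinal.lt_aleph0.1 (hLle.trans_lt hfin₁)
  have hmm : m' ≤ m := by
    rw [hm, hm'] at hLle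
    exact_mod_cast hLle
  refine hreal L hLtop _ ?_ (comap_isR1 hres hcov L ?_) ?_ m' hm' ((hb hmm).trans_lt hp)
  · intro c
    rw [ValuationSubring.mem_comap]
    have h := hk₂ c
    rwa [IsScalarTower.algebraMap_apply k L K₁] at h
  · obtain ⟨c, hcA, hcV, hcV₁⟩ := hc
    have hcV₁' : c ∈ V₁ := hle (hA c hcA)
    have hcL : φ ⟨c, hcV₁'⟩ ∈ L :=
      hL ▸ IntermediateField.subset_adjoin _ _ ⟨⟨c, hcV₁'⟩, hcA, rfl⟩
    have hc0 : φ ⟨c, hcV₁'⟩ ≠ 0 := (hres.ne_zero_iff _).2 hcV₁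
    have hlt : V₂.valuation (φ ⟨c, hcV₁'⟩) < 1 := (hres.val_lt_iff _).2 hcV
    intro htop
    have h1 : (⟨φ ⟨c, hcV₁'⟩, hcL⟩ : L)⁻¹ ∈ V₂.comap (algebraMap L K₁) := by
      rw [htop]
      exact ValuationSubring.mem_top _
    rw [ValuationSubring.mem_comap, map_inv₀, ← V₂.valuation_le_one_iff, map_inv₀] at h1
    have h2 : V₂.valuation (φ ⟨c, hcV₁'⟩) ≠ 0 := (Valuation.ne_zero_iff _).2 hc0
    have h3 : V₂.valuation (φ ⟨c, hcV₁'⟩) * (V₂.valuation (φ ⟨c, hcV₁'⟩))⁻¹ < 1 :=
      mul_lt_of_lt_of_le_one hlt h1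
    rw [mul_inv_cancel₀ h2] at h3
    exact lt_irrefl _ h3
  · intro hz f hf
    rw [ValuationSubring.mem_comap] at hf
    obtain ⟨c, hc⟩ := hres0 hz _ hf
    refine ⟨c, ?_⟩
    rw [comap_lt_iff]
    have h1 : ((f - algebraMap k L c : L) : K₁) = algebraMap L K₁ f - algebraMap k K₁ c := rfl
    rw [h1]
    exact hc

/-- The components `CompZ` in terms of residue degrees. -/
theorem compZ_of {z : Prop} {b : ℕ → ℕ} {p : ℕ} {k K : Type} [Field k] [IsAlgClosed k] [Field K]
    [Algebra k K] {V V₁ : ValuationSubring K} (hle : V ≤ V₁)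
    (hk : ∀ c : k, algebraMap k K c ∈ V) (hk₁ : ∀ c : k, algebraMap k K c ∈ V₁)
    (h0 : z → resDegree (algebraMap k K) V hk = 0) (m : ℕ)
    (hm : resDegree (algebraMap k K) V₁ hk₁ = m) (hp : b m < p) : CompZ z b p k V V₁ := by
  let alg : Algebra k (IsLocalRing.ResidueField V₁) :=
    ((IsLocalRing.residue V₁).comp ((algebraMap k K).codRestrict V₁ hk₁)).toAlgebra
  have hres : IsRes (k := k) V V₁ (IsLocalRing.residue V₁) (imgV hle) :=
    isRes_residue hle hk hk₁
  have hm' : Algebra.trdeg k (IsLocalRing.ResidueField V₁) = m := hm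
  refine ⟨IsLocalRing.ResidueField V₁, inferInstance, alg, IsLocalRing.residue V₁, imgV hle, hres,
    ?_, m, hm', hp⟩
  intro hz f hf
  obtain ⟨y, rfl⟩ := hres.surj f
  rw [hres.mem] at hf
  obtain ⟨c, hc⟩ := exists_const_of_resDegree hk (h0 hz) hf
  refine ⟨c, ?_⟩
  rw [← hres.map_const c (hres.const₁ c), ← map_sub, hres.val_lt_iff]
  exact hc

/-- All rank one components of the valuation ring `V` of `K` have Abhyankar defect at most one over
`k`, or have a residue field algebraic over `k`, defect at most two and dimension `m` with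
`2 ^ m * m! < p`, or have dimension `m` with `b m < p` (and, if `z`, a residue field algebraic
over `k`). -/
def CompsZ (z : Prop) (b : ℕ → ℕ) (p : ℕ) {k K : Type} [Field k] [Field K] (ι : k →+* K)
    (V : ValuationSubring K) : Prop :=
  ∀ V₁ V₂ : ValuationSubring K, V ≤ V₁ → V₁ ⋖ V₂ →
    ∃ (h₁ : ∀ a, ι a ∈ V₁) (h₂ : ∀ a, ι a ∈ V₂),
      resDegree ι V₂ h₂ ≤ resDegree ι V₁ h₁ + compRank V₁ V₂ + 1 ∨
      (resDegree ι V₁ h₁ = 0 ∧ ∃ m : ℕ, resDegree ι V₂ h₂ = m ∧
        (m : Cardinal) ≤ compRank V₁ V₂ + 2 ∧ 2 ^ m * m.factorial < p) ∨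
      ((z → resDegree ι V₁ h₁ = 0) ∧ ∃ m : ℕ, resDegree ι V₂ h₂ = m ∧ b m < p)

/-- The hypothesis of the final theorems. -/
theorem allComp3_of {z : Prop} {b : ℕ → ℕ} {p : ℕ} {k K : Type} [Field k] [IsAlgClosed k]
    [Field K] [Algebra k K]
    (hfin : Algebra.trdeg k K < Cardinal.aleph0) {V : ValuationSubring K}
    (h : CompsZ z b p (algebraMap k K) V) : AllComp3 z b p k V := by
  intro V₁ V₂ h₁ hc
  obtain ⟨hk₁, hk₂, hd⟩ := h V₁ V₂ h₁ hc.covBy
  rcases hd with hd | ⟨h0, m, hm, hm2, hp⟩ | ⟨h0, m, hm, hp⟩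
  · exact Or.inl (compLE_of hfin hc.1.le hk₁ hk₂ hd)
  · exact Or.inr (Or.inl (compZD_of hc.1.le hk₁ hk₂ h0 m hm hm2 hp))
  · exact Or.inr (Or.inr (compZ_of hc.1.le hk₁ hk₂ h0 m hm hp))

section Main

variable {k K : Type} [Field k] [Field K] [Algebra k K]

/-- The components of a valuation ring with a dense subfield which satisfies `CompsZ` are good. -/
theorem allGood_of_dense3 {z : Prop} {b : ℕ → ℕ} (hb : Monotone b) (p : ℕ) {k K : Type} [Field k]
    [IsAlgClosed k] [Field K] [Algebra k K]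
    (hreal : RealCaseR k) (hreal2 : RealCase2 p k) (hreal3 : RealCaseZ z b p k)
    (hK : (⊤ : IntermediateField k K).FG)
    (V : ValuationSubring K) (hkV : ∀ c : k, algebraMap k K c ∈ V) (F : IntermediateField k K)
    (hF : F.FG) (hdense : ∀ a b : K, b ≠ 0 → ∃ c ∈ F, V.valuation (a - c) < V.valuation b)
    (s : Finset K) (hs : AlgebraicIndependent F (Subtype.val : s → K))
    (hsep : Algebra.IsSeparable (IntermediateField.adjoin F (s : Set K)) K)
    (hdef : CompsZ z b p (algebraMap k F) (V.comap (algebraMap F K))) :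
    AllGood k V := by
  have hFtop : (⊤ : IntermediateField k F).FG := by
    rw [← IntermediateField.essFiniteType_iff] at hF
    rw [IntermediateField.fg_top_iff]
    exact hF
  have h2 : Algebra.EssFiniteType k K := IntermediateField.fg_top_iff.1 hK
  have h3 : Algebra.EssFiniteType k F := IntermediateField.fg_top_iff.1 hFtop
  have hfin : Algebra.trdeg k K < Cardinal.aleph0 := _root_.trdeg_lt_aleph0 k K
  have hfinF : Algebra.trdeg k F < Cardinal.aleph0 := _root_.trdeg_lt_aleph0 k F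
  have hd : DenseIn V (algebraMap F K) := by
    intro a b hb
    obtain ⟨c, hc, hc'⟩ := hdense a b hb
    exact ⟨⟨c, hc⟩, hc'⟩
  intro V₂ V₁ hle hcov
  have hne₂ : V₂ ≠ ⊤ := fun h => (lt_of_lt_of_le hcov.1 le_top).ne h
  have hd₂ : DenseIn V₂ (algebraMap F K) := DenseIn.of_le hle hd hne₂
  have hcovF : Covers (V₂.comap (algebraMap F K)) (V₁.comap (algebraMap F K)) :=
    Covers.comap hd hle hcov
  obtain ⟨hkW₂, hkW₁, hdeg⟩ := hdef (V₂.comap (algebraMap F K)) (V₁.comap (algebraMap F K))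
    (fun x hx => by
      rw [ValuationSubring.mem_comap] at hx ⊢
      exact hle hx) hcovF.covBy
  have hk₂ : ∀ c : k, algebraMap k K c ∈ V₂ := fun c => hle (hkV c)
  have hk₁ : ∀ c : k, algebraMap k K c ∈ V₁ := fun c => hcov.1.le (hk₂ c)
  have hm₂ : ∀ x : F, x ∈ V₂.comap (algebraMap F K) ↔ algebraMap F K x ∈ V₂ := fun x =>
    ValuationSubring.mem_comap
  have hm₁ : ∀ x : F, x ∈ V₁.comap (algebraMap F K) ↔ algebraMap F K x ∈ V₁ := fun x =>
    ValuationSubring.mem_comap
  by_cases hne : V₁ = ⊤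
  · subst hne
    have htop : (⊤ : ValuationSubring K).comap (algebraMap F K) = ⊤ := by
      rw [eq_top_iff]
      intro x _
      rw [ValuationSubring.mem_comap]
      exact ValuationSubring.mem_top _
    refine compGood_top hK hk₂ ?_
    have hcovF' : Covers (V₂.comap (algebraMap F K)) ⊤ := htop ▸ hcovF
    have hLU : LUr k (V₂.comap (algebraMap F K)) := by
      rcases hdeg with hdeg | ⟨h0, m, hm, hm2, hp⟩ | ⟨h0, m, hm, hp⟩
      · have hdeg' : ∀ U : ValuationSubring F, U = ⊤ → ∀ hU : ∀ c : k, algebraMap k F c ∈ U,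
            resDegree (algebraMap k F) U hU ≤ resDegree (algebraMap k F)
              (V₂.comap (algebraMap F K)) hkW₂ + compRank (V₂.comap (algebraMap F K)) U + 1 →
            DefLE k (V₂.comap (algebraMap F K)) 1 := by
          rintro U rfl hU h
          exact defLE_of hfinF hkW₂ hU h
        exact hreal F hFtop _ hkW₂ (isR1_of_covers hcovF') (hdeg' _ htop hkW₁ hdeg)
      · have hdeg' : ∀ U : ValuationSubring F, U = ⊤ → ∀ hU : ∀ c : k, algebraMap k F c ∈ U,
            resDegree (algebraMap k F) U hU = m →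
            (m : Cardinal) ≤ compRank (V₂.comap (algebraMap F K)) U + 2 →
            Algebra.trdeg k F = m ∧ DefLE k (V₂.comap (algebraMap F K)) 2 := by
          rintro U rfl hU h h'
          rw [D2.resDegree_top] at h
          exact ⟨h, D2.defLE_two_of hfinF hkW₂ (h.le.trans h')⟩
        obtain ⟨htr, hD⟩ := hdeg' _ htop hkW₁ hm hm2
        exact hreal2 F hFtop _ hkW₂ (isR1_of_covers hcovF')
          (fun f hf => exists_const_of_resDegree hkW₂ h0 hf) m htr hp hD
      · have hdeg' : ∀ U : ValuationSubring F, U = ⊤ → ∀ hU : ∀ c : k, algebraMap k F c ∈ U,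
            resDegree (algebraMap k F) U hU = m → Algebra.trdeg k F = m := by
          rintro U rfl hU h
          rwa [D2.resDegree_top] at h
        exact hreal3 F hFtop _ hkW₂ (isR1_of_covers hcovF')
          (fun hz f hf => exists_const_of_resDegree hkW₂ (h0 hz) hf) m (hdeg' _ htop hkW₁ hm) hp
    rw [lur_iff] at hLU ⊢
    exact ascent (ascends_lur k) V₂ hd₂ (fgField_of_fg hFtop) (fgField_of_fg hK) s hs hsep hLU
  · have hd₁ : DenseIn V₁ (algebraMap F K) := DenseIn.of_le (hle.trans hcov.1.le) hd hne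
    rcases hdeg with hdeg | ⟨h0, m, hm, hm2, hp⟩ | ⟨h0, m, hm, hp⟩
    · refine compGood_of hreal hcov hfin (compLE_of hfin hcov.1.le hk₂ hk₁ ?_)
      refine (resDegree_ge hm₁ hkW₁ hk₁ hd₁ hne).trans (hdeg.trans ?_)
      gcongr
      · exact resDegree_le V₂ _ hm₂ hkW₂ hk₂
      · exact compRank_le hm₂ hm₁
    · refine compGood_of2 hreal2 hcov (compZD_of hcov.1.le hk₂ hk₁ ?_ m ?_ ?_ hp)
      · exact le_antisymm ((resDegree_ge hm₂ hkW₂ hk₂ hd₂ hne₂).trans h0.le) zero_le
      · exact le_antisymm ((resDegree_ge hm₁ hkW₁ hk₁ hd₁ hne).trans hm.le)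
          (hm.ge.trans (resDegree_le V₁ _ hm₁ hkW₁ hk₁))
      · refine hm2.trans ?_
        gcongr
        exact compRank_le hm₂ hm₁
    · refine compGood_ofZ hb hreal3 hcov (compZ_of hcov.1.le hk₂ hk₁ (fun hz => ?_) m ?_ hp)
      · exact le_antisymm ((resDegree_ge hm₂ hkW₂ hk₂ hd₂ hne₂).trans (h0 hz).le) zero_le
      · exact le_antisymm ((resDegree_ge hm₁ hkW₁ hk₁ hd₁ hne).trans hm.le)
          (hm.ge.trans (resDegree_le V₁ _ hm₁ hkW₁ hk₁))

/-- The residue field of `V₁` has transcendence degree at most that of `K`. -/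
theorem exists_trdeg_residue {k K : Type} [Field k] [Field K] [Algebra k K] {n : ℕ}
    (hn : Algebra.trdeg k K = n) {V V₁ : ValuationSubring K} (hle : V ≤ V₁)
    (hk : ∀ c : k, algebraMap k K c ∈ V) (hk₁ : ∀ c : k, algebraMap k K c ∈ V₁) :
    ∃ m : ℕ, resDegree (algebraMap k K) V₁ hk₁ = m ∧ m ≤ n := by
  let alg : Algebra k (IsLocalRing.ResidueField V₁) :=
    ((IsLocalRing.residue V₁).comp ((algebraMap k K).codRestrict V₁ hk₁)).toAlgebra
  have hres : IsRes (k := k) V V₁ (IsLocalRing.residue V₁) (imgV hle) :=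
    isRes_residue hle hk hk₁
  obtain ⟨m, hm, hle, -⟩ := hres.trdeg_le hn (x := (Fin.elim0 : Fin 0 → K))
    ⟨fun i => i.elim0, fun e _ => Subsingleton.elim _ _⟩
  exact ⟨m, hm, by omega⟩

/-- All valuation rings of a field of small dimension satisfy the hypothesis. -/
theorem compsZ_full {b : ℕ → ℕ} (hb : Monotone b) {p : ℕ} {k K : Type} [Field k]
    [Field K] [Algebra k K] {n : ℕ} (hn : Algebra.trdeg k K = n) (hp : b n < p)
    {V : ValuationSubring K} (hk : ∀ c : k, algebraMap k K c ∈ V) :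
    CompsZ False b p (algebraMap k K) V := by
  intro V₁ V₂ h₁ hc
  have hk₁ : ∀ c : k, algebraMap k K c ∈ V₁ := fun c => h₁ (hk c)
  have hk₂ : ∀ c : k, algebraMap k K c ∈ V₂ := fun c => hc.le (hk₁ c)
  obtain ⟨m, hm, hmn⟩ := exists_trdeg_residue hn hc.le hk₁ hk₂
  exact ⟨hk₁, hk₂, Or.inr (Or.inr ⟨fun h => h.elim, m, hm, (hb hmn).trans_lt hp⟩)⟩

/-- All components of all valuation rings are good. -/
theorem allGood_full {b : ℕ → ℕ} (hb : Monotone b) (p : ℕ) {k K : Type} [Field k]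
    [IsAlgClosed k] [Field K] [Algebra k K] (hreal3 : RealCaseFull b p k) {n : ℕ}
    (hn : Algebra.trdeg k K = n) (hp : b n < p)
    (V : ValuationSubring K) (hkV : ∀ c : k, algebraMap k K c ∈ V) : AllGood k V := by
  intro V₂ V₁ hle hcov
  have hk₂ : ∀ c : k, algebraMap k K c ∈ V₂ := fun c => hle (hkV c)
  have hk₁ : ∀ c : k, algebraMap k K c ∈ V₁ := fun c => hcov.1.le (hk₂ c)
  obtain ⟨m, hm, hmn⟩ := exists_trdeg_residue hn hcov.1.le hk₂ hk₁
  exact compGood_ofZ (z := False) hb hreal3.z hcov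
    (compZ_of hcov.1.le hk₂ hk₁ (fun h => h.elim) m hm ((hb hmn).trans_lt hp))

end Main

end Pool.Agent.ALLF
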