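import Pool.Agent.Lib.ALL_h68.Refine
import Mathlib.RingTheory.Nullstellensatz

/-!
# Zero-dimensional refinements containing a finitely generated subalgebra
-/

set_option autoImplicit false

namespace Pool.Agent.ALLF

open Pool.Agent.ALL68

universe u

variable {k K : Type u} [Field k] [Field K] [Algebra k K]

/-- Below every valuation ring containing `A` there is a minimal one. -/
theorem exists_min_sub (V : ValuationSubring K) (A : Subalgebra k K) (hA : ∀ a ∈ A, a ∈ V) :
    ∃ W : ValuationSubring K, W ≤ V ∧ (∀ a ∈ A, a ∈ W) ∧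
      ∀ W' : ValuationSubring K, (∀ a ∈ A, a ∈ W') → W' ≤ W → W' = W := by
  let S : Set (ValuationSubring K)ᵒᵈ :=
    {W | ∀ a ∈ A, a ∈ (OrderDual.ofDual W : ValuationSubring K)}
  obtain ⟨W, hVW, hW⟩ := zorn_le_nonempty₀ S (fun c hcS hc y hy => by
    have hc' : IsChain (· ≤ ·) (OrderDual.ofDual '' c : Set (ValuationSubring K)) := by
      rintro _ ⟨a, ha, rfl⟩ _ ⟨b, hb, rfl⟩ hab
      have hab' : a ≠ b := fun h => hab (by rw [h])
      exact (hc ha hb hab').symm
    refine ⟨OrderDual.toDual (chainInf _ hc' ⟨_, y, hy, rfl⟩), ?_, ?_⟩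
    · rintro a ha _ ⟨W, hW, rfl⟩
      exact hcS hW a ha
    · intro z hz x hx
      exact hx _ ⟨z, hz, rfl⟩) (OrderDual.toDual V) hA
  refine ⟨OrderDual.ofDual W, hVW, hW.1, fun W' hW' hle => ?_⟩
  have h1 : W ≤ OrderDual.toDual W' := hle
  exact le_antisymm hle (hW.2 hW' h1)

/-- `A + m_W`. -/
def addM (W : ValuationSubring K) (A : Subalgebra k K) (hA : ∀ a ∈ A, a ∈ W) : Subring K where
  carrier := {f | ∃ a ∈ A, W.valuation (f - a) < 1}
  mul_mem' := by
    rintro f g ⟨a, ha, hfa⟩ ⟨b, hb, hgb⟩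
    refine ⟨a * b, A.mul_mem ha hb, ?_⟩
    have e : f * g - a * b = (f - a) * (g - b) + (a * (g - b) + b * (f - a)) := by ring
    rw [e]
    refine Valuation.map_add_lt _ ?_ (Valuation.map_add_lt _ ?_ ?_)
    · rw [map_mul]
      exact mul_lt_one_of_lt_of_le hfa hgb.le
    · rw [map_mul]
      exact mul_lt_one_of_le_of_lt' ((W.valuation_le_one_iff _).2 (hA a ha)) hgb
    · rw [map_mul]
      exact mul_lt_one_of_le_of_lt' ((W.valuation_le_one_iff _).2 (hA b hb)) hfa
  one_mem' := ⟨1, A.one_mem, by rw [sub_self, map_zero]; exact zero_lt_one⟩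
  add_mem' := by
    rintro f g ⟨a, ha, hfa⟩ ⟨b, hb, hgb⟩
    refine ⟨a + b, A.add_mem ha hb, ?_⟩
    rw [add_sub_add_comm]
    exact Valuation.map_add_lt _ hfa hgb
  zero_mem' := ⟨0, A.zero_mem, by rw [sub_self, map_zero]; exact zero_lt_one⟩
  neg_mem' := by
    rintro f ⟨a, ha, hfa⟩
    refine ⟨-a, A.neg_mem ha, ?_⟩
    rw [← neg_sub', Valuation.map_neg]
    exact hfa

theorem le_of_nonunits {W W' : ValuationSubring K}
    (h : ∀ x : K, W.valuation x < 1 → x ∈ W'.nonunits) : W' ≤ W := by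
  intro x hx
  by_contra hxW
  have hx0 : x ≠ 0 := by
    rintro rfl
    exact hxW W.zero_mem
  have h1 : 1 < W.valuation x := by
    rw [← not_le, W.valuation_le_one_iff]
    exact hxW
  have h2 : W.valuation x⁻¹ < 1 := by
    rw [map_inv₀]
    exact inv_lt_one_of_one_lt₀ h1
  have h3 := h _ h2
  rw [ValuationSubring.mem_nonunits_iff] at h3
  have h4 : W'.valuation x ≤ 1 := (W'.valuation_le_one_iff x).2 hx
  have h5 : W'.valuation x * W'.valuation x⁻¹ = 1 := by
    rw [← map_mul, mul_inv_cancel₀ hx0, map_one]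
  have h6 := mul_lt_one_of_le_of_lt' h4 h3
  rw [h5] at h6
  exact lt_irrefl _ h6

/-- The centre of a minimal valuation ring over `A` is a maximal ideal: every element of `A` which
is a unit of `W` has an inverse in `A` modulo the centre. -/
theorem inv_of_min (W : ValuationSubring K) (A : Subalgebra k K) (hA : ∀ a ∈ A, a ∈ W)
    (hmin : ∀ W' : ValuationSubring K, (∀ a ∈ A, a ∈ W') → W' ≤ W → W' = W)
    {a : K} (ha : a ∈ A) (ha1 : W.valuation a = 1) : ∃ b ∈ A, W.valuation (a * b - 1) < 1 := by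
  by_contra hcon
  push Not at hcon
  let B : Subring K := addM W A hA
  have haB : a ∈ B := ⟨a, ha, by rw [sub_self, map_zero]; exact zero_lt_one⟩
  let I : Ideal B :=
    { carrier := {f | ∃ b ∈ A, W.valuation ((f : K) - a * b) < 1}
      add_mem' := by
        rintro f g ⟨b, hb, hf⟩ ⟨c, hc, hg⟩
        refine ⟨b + c, A.add_mem hb hc, ?_⟩
        change W.valuation (((f : K) + (g : K)) - _) < 1
        rw [mul_add, add_sub_add_comm]
        exact Valuation.map_add_lt _ hf hg
      zero_mem' := ⟨0, A.zero_mem, by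
        rw [mul_zero, sub_zero]
        change W.valuation (0 : K) < 1
        rw [map_zero]
        exact zero_lt_one⟩
      smul_mem' := by
        rintro ⟨f, c, hc, hf⟩ g ⟨b, hb, hg⟩
        refine ⟨c * b, A.mul_mem hc hb, ?_⟩
        change W.valuation (f * (g : K) - a * (c * b)) < 1
        have e : f * (g : K) - a * (c * b) = (f - c) * ((g : K) - a * b) +
            (c * ((g : K) - a * b) + a * b * (f - c)) := by ring
        rw [e]
        refine Valuation.map_add_lt _ ?_ (Valuation.map_add_lt _ ?_ ?_)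
        · rw [map_mul]
          exact mul_lt_one_of_lt_of_le hf hg.le
        · rw [map_mul]
          exact mul_lt_one_of_le_of_lt' ((W.valuation_le_one_iff _).2 (hA c hc)) hg
        · rw [map_mul]
          exact mul_lt_one_of_le_of_lt' ((W.valuation_le_one_iff _).2
            (hA _ (A.mul_mem ha hb))) hf }
  have hI : I ≠ ⊤ := by
    rw [Ne, Ideal.eq_top_iff_one]
    rintro ⟨b, hb, h⟩
    have h1 := hcon b hb
    rw [← neg_sub, Valuation.map_neg] at h1
    exact h1.not_gt h
  obtain ⟨W', hBW', hIW'⟩ := Ideal.image_subset_nonunits_valuationSubring I hI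
  have hsmall : ∀ x : K, W.valuation x < 1 → x ∈ W'.nonunits := by
    intro x hx
    have hxB : x ∈ B := ⟨0, A.zero_mem, by rw [sub_zero]; exact hx⟩
    refine hIW' ⟨⟨x, hxB⟩, ⟨0, A.zero_mem, ?_⟩, rfl⟩
    rw [mul_zero, sub_zero]
    exact hx
  have hle' : W' ≤ W := le_of_nonunits hsmall
  have hA' : ∀ c ∈ A, c ∈ W' := fun c hc =>
    hBW' ⟨c, hc, by rw [sub_self, map_zero]; exact zero_lt_one⟩
  have heq := hmin W' hA' hle'
  have h1 : a ∈ W'.nonunits := by
    refine hIW' ⟨⟨a, haB⟩, ⟨1, A.one_mem, ?_⟩, rfl⟩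
    rw [mul_one, sub_self, map_zero]
    exact zero_lt_one
  rw [heq, ValuationSubring.mem_nonunits_iff, ha1] at h1
  exact lt_irrefl _ h1

/-- The centre of a minimal valuation ring over `A` has the residue field `k`. -/
theorem res_sub [IsAlgClosed k] (W : ValuationSubring K) (A : Subalgebra k K) (hfg : A.FG)
    (hA : ∀ a ∈ A, a ∈ W)
    (hmin : ∀ W' : ValuationSubring K, (∀ a ∈ A, a ∈ W') → W' ≤ W → W' = W) :
    ∀ a ∈ A, ∃ c : k, W.valuation (a - algebraMap k K c) < 1 := by
  have hfin : Algebra.FiniteType k A := (Subalgebra.fg_iff_finiteType A).1 hfg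
  let P : Ideal A :=
    { carrier := {f | W.valuation (f : K) < 1}
      add_mem' := fun {f g} hf hg => by
        change W.valuation ((f : K) + (g : K)) < 1
        exact Valuation.map_add_lt _ hf hg
      zero_mem' := by
        change W.valuation (0 : K) < 1
        rw [map_zero]
        exact zero_lt_one
      smul_mem' := fun c f hf => by
        change W.valuation ((c : K) * (f : K)) < 1
        rw [map_mul]
        exact mul_lt_one_of_le_of_lt' ((W.valuation_le_one_iff _).2 (hA c c.2)) hf }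
  have hmem : ∀ f : A, f ∈ P ↔ W.valuation (f : K) < 1 := fun f => Iff.rfl
  have hmax : P.IsMaximal := by
    rw [Ideal.isMaximal_iff]
    refine ⟨fun h => ?_, fun J f hPJ hf hfJ => ?_⟩
    · rw [hmem] at h
      change W.valuation (1 : K) < 1 at h
      rw [map_one] at h
      exact lt_irrefl _ h
    · have hf1 : W.valuation (f : K) = 1 :=
        le_antisymm ((W.valuation_le_one_iff _).2 (hA f f.2)) (not_lt.1 hf)
      obtain ⟨b, hb, hab⟩ := inv_of_min W A hA hmin f.2 hf1
      have h1 : (f * ⟨b, hb⟩ - 1 : A) ∈ P := (hmem _).2 hab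
      have h2 : (1 : A) = f * ⟨b, hb⟩ - (f * ⟨b, hb⟩ - 1) := by ring
      rw [h2]
      exact J.sub_mem (J.mul_mem_right _ hfJ) (hPJ h1)
  let _ : Field (A ⧸ P) := Ideal.Quotient.field P
  have hfin' : Algebra.FiniteType k (A ⧸ P) := inferInstance
  have hfin2 : Module.Finite k (A ⧸ P) := finite_of_finite_type_of_isJacobsonRing k (A ⧸ P)
  have hsurj := (IsAlgClosed.algebraMap_bijective_of_isIntegral (k := k) (K := A ⧸ P)).2
  intro a ha
  obtain ⟨c, hc⟩ := hsurj (Ideal.Quotient.mk P ⟨a, ha⟩)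
  refine ⟨c, ?_⟩
  have h1 : (⟨a, ha⟩ : A) - algebraMap k A c ∈ P := by
    rw [← Ideal.Quotient.eq_zero_iff_mem, map_sub, ← hc, sub_eq_zero]
    rfl
  exact (hmem _).1 h1

/-- A zero-dimensional refinement containing a finitely generated subalgebra. -/
theorem exists_zeroDim_sub [IsAlgClosed k] (V : ValuationSubring K) (A : Subalgebra k K)
    (hfg : A.FG) (hA : ∀ a ∈ A, a ∈ V) :
    ∃ W : ValuationSubring K, W ≤ V ∧ (∀ a ∈ A, a ∈ W) ∧
      ∀ f ∈ W, ∃ c : k, W.valuation (f - algebraMap k K c) < 1 := by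
  obtain ⟨W, hWV, hAW, hmin⟩ := exists_min_sub V A hA
  have hres := res_sub W A hfg hAW hmin
  have hkW : ∀ c : k, algebraMap k K c ∈ W := fun c => hAW _ (A.algebraMap_mem c)
  refine ⟨W, hWV, hAW, res_of_min W hkW fun W' hkW' hle => hmin W' (fun a ha => ?_) hle⟩
  obtain ⟨c, hc⟩ := hres a ha
  have h1 : a - algebraMap k K c ∈ W' := by
    rw [← W'.valuation_le_one_iff]
    exact (Pool.Agent.LU2.val_lt_one_of_le hle hc).le
  have h2 : a = (a - algebraMap k K c) + algebraMap k K c := by ring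
  rw [h2]
  exact W'.add_mem _ _ h1 (hkW' c)

end Pool.Agent.ALLF
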