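import Mathlib

/-!
# The bound of project ALL is monotone
-/

set_option autoImplicit false

namespace Pool.Agent.ALLF

/-- `(n + 1) 2^(3n-1) (n!)^2` -/
def dimBound (n : ℕ) : ℕ := (n + 1) * 2 ^ (3 * n - 1) * n.factorial ^ 2

theorem dimBound_mono : Monotone dimBound := by
  intro m n h
  unfold dimBound
  have h1 : m.factorial ≤ n.factorial := Nat.factorial_le h
  have h2 : 2 ^ (3 * m - 1) ≤ 2 ^ (3 * n - 1) := Nat.pow_le_pow_right (by norm_num) (by omega)
  exact Nat.mul_le_mul (Nat.mul_le_mul (by omega) h2) (Nat.pow_le_pow_left h1 2)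

end Pool.Agent.ALLF
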