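import Pool.Agent.Lib.ALL.Defs
import Pool.Agent.Lib.ALLO.Defs

/-!
# Project ALL: a frame for a real valuation is a frame for the valuation with values in `ℝ`
-/

set_option autoImplicit false

namespace Pool.Agent.ALLF

open Pool.Agent.H15JM (RVal)
open Pool.Agent.TAO (OVal ofR)

universe u

variable {k Ω : Type u} [Field k] [Field Ω] [Algebra k Ω] {v : RVal Ω} {D : ℕ}

theorem locv_ofR (v : RVal Ω) (S : Subalgebra k Ω) :
    ALLO.locv (ofR v) S = LU1.locv v S := Subalgebra.ext fun _ => Iff.rfl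

/-- A real frame, as a frame with values in `ℝ`. -/
def frO (F : ALL.FR k v D) : ALLO.FR k (ofR v) D where
  Γ := F.Γ
  fg := F.fg
  full := F.full
  χ := F.χ
  χ_ne := F.χ_ne
  χ_add := F.χ_add
  χ_val := F.χ_val
  y := F.y
  y_ne := F.y_ne
  y_pos := F.y_pos
  R := F.R
  nonneg := F.nonneg
  loc := F.loc
  χ_mem := F.χ_mem
  y_mem := F.y_mem
  fgen := by
    obtain ⟨S, hS⟩ := F.fgen
    exact ⟨S, by rw [locv_ofR]; exact hS⟩
  gen := F.gen
  alg := F.alg

theorem ctxR_ofR {n r : ℕ} (h : TA.CtxR k v n r) : TAO.CtxR k (ofR v) n r :=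
  ⟨⟨h.triv, h.res, h.trdeg⟩, h.rank⟩

theorem emb_ofR {E : IntermediateField k Ω} (h : ALL.Emb v D E) : ALLO.Emb (ofR v) D E := by
  intro Z hZ hE
  obtain ⟨C, hC1, hC2, hC3⟩ := h Z hZ hE
  exact ⟨frO C, hC1, hC2, hC3⟩

end Pool.Agent.ALLF
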