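import Pool.Agent.Lib.TA.Defs
import Pool.Agent.Lib.LU2G.Real
import Pool.Agent.Lib.LUC.Mods

/-!
# Local uniformization of all zero-dimensional real valuations in large characteristic: definitions
-/

set_option autoImplicit false

namespace Pool.Agent.ALLF

open Pool.Agent.H15JM (RVal)
open Pool.Agent.TA (CtxR)
open Pool.Agent.LU2 (IsR1)
open Pool.Agent.LU2G (LUr)
open Pool.Agent.LUC (LUs)

universe u

/-- The statement about function fields in an algebraically closed field with a real valuation of
residue field `k`: log uniformization, if `b n < p`, where `n` is the transcendence degree. -/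
def MainAll (b : ℕ → ℕ) (p : ℕ) (k : Type u) [Field k] : Prop :=
  ∀ (Ω : Type u) [Field Ω] [Algebra k Ω] [IsAlgClosed Ω] (v : RVal Ω) (n r : ℕ), CtxR k v n r →
    0 < r → b n < p → ∀ E : IntermediateField k Ω, E.FG → (∀ g : Ω, IsAlgebraic E g) →
      LUs v (algebraMap k Ω).range E.toSubfield

/-- The real zero-dimensional case. -/
def RealCaseAll (b : ℕ → ℕ) (p : ℕ) (k : Type u) [Field k] : Prop :=
  ∀ (K : Type u) [Field K] [Algebra k K], (⊤ : IntermediateField k K).FG →
    ∀ V : ValuationSubring K, (∀ c : k, algebraMap k K c ∈ V) → IsR1 V →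
      (∀ f ∈ V, ∃ c : k, V.valuation (f - algebraMap k K c) < 1) →
      ∀ m : ℕ, Algebra.trdeg k K = m → b m < p → LUr k V

end Pool.Agent.ALLF
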