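import Pool.Agent.Lib.ALL_h26.Def
import Pool.Agent.Lib.TA.Basis
import Pool.Agent.Lib.D2.Fin1b

/-!
# Project ALL, FIN1: valuation rings of rank one with residue field `k`

`realCaseAll` : log uniformization of these valuation rings, from the statement `LUs` for the
subfields of algebraically closed fields with a real valuation.
-/

set_option autoImplicit false

namespace Pool.Agent.ALLF

open Pool.Agent.H15JM (RVal)
open Pool.Agent.LU1 (VPos)
open Pool.Agent.LU2 (IsR1 IndVal IndRes DefLE Rel)
open Pool.Agent.LUC (LUs LUrV)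
open Pool.Agent.TA (CtxR)
open Pool.Agent.D2 (Ctx0 residue_ext0 lur_of_lurV)
open Polynomial

universe u

/-- The standing assumptions for the algebraic closure. -/
theorem ctxR_of_ext {k K Ω : Type u} [Field k] [Field K] [Field Ω] [Algebra k K] [Algebra K Ω]
    [Algebra k Ω] [IsScalarTower k K Ω] [Algebra.IsAlgebraic K Ω] [IsAlgClosed k] (v : RVal K)
    (h : Ctx0 k v) (w : RVal Ω)
    (hw : ∀ g : K, g ≠ 0 → w (algebraMap K Ω g) = v g) {n r : ℕ}
    (htr : Algebra.trdeg k K = n)
    (X : Fin r → K) (hX : ∀ i, X i ≠ 0) (hind : LinearIndependent ℚ fun i => v (X i))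
    (hspan : ∀ g : K, g ≠ 0 → v g ∈ Submodule.span ℚ (Set.range fun i => v (X i))) :
    CtxR k w n r where
  triv := by
    intro c hc
    rw [IsScalarTower.algebraMap_apply k K Ω, hw _ (by rwa [_root_.map_ne_zero]), h.triv c hc]
  res := residue_ext0 v h w hw
  trdeg := by
    have h1 := trdeg_add_eq k K (A := Ω)
    rw [trdeg_eq_zero (R := K) (A := Ω), add_zero] at h1
    rw [← h1, htr]
  rank := by
    have hXw : (fun i => w (algebraMap K Ω (X i))) = fun i => v (X i) := by
      funext i
      exact hw _ (hX i)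
    refine ⟨fun i => algebraMap K Ω (X i), fun i => by simpa using hX i, ?_, ?_⟩
    · rw [hXw]; exact hind
    · rw [hXw]
      exact LU1.ExtVal_H2.val_mem_span v w hw _ hspan

/-- A maximal rationally independent system of values. -/
theorem exists_max_ind {k K : Type u} [Field k] [Field K] [Algebra k K] (v : RVal K)
    (htriv : ∀ c : k, c ≠ 0 → v (algebraMap k K c) = 0) {n : ℕ} (htr : Algebra.trdeg k K = n) :
    ∃ (r : ℕ) (X : Fin r → K), (∀ i, X i ≠ 0) ∧ (LinearIndependent ℚ fun i => v (X i)) ∧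
      ∀ g : K, g ≠ 0 → v g ∈ Submodule.span ℚ (Set.range fun i => v (X i)) := by
  classical
  -- the sizes of independent systems are bounded
  have hle : ∀ (r : ℕ) (X : Fin r → K), (∀ i, X i ≠ 0) →
      (LinearIndependent ℚ fun i => v (X i)) → r ≤ n := by
    intro r X hX0 hX
    have h1 := (TA.algInd_of_val htriv hX0 hX).lift_cardinalMk_le_trdeg
    rw [htr] at h1
    simpa using h1
  by_contra hcon
  push Not at hcon
  have hall : ∀ r : ℕ, ∃ X : Fin r → K, (∀ i, X i ≠ 0) ∧
      LinearIndependent ℚ fun i => v (X i) := by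
    intro r
    induction r with
    | zero => exact ⟨Fin.elim0, fun i => i.elim0, linearIndependent_empty_type⟩
    | succ r ih =>
      obtain ⟨X, hX0, hX⟩ := ih
      obtain ⟨g, hg, hg'⟩ := hcon r X hX0 hX
      refine ⟨Fin.cons g X, fun i => ?_, ?_⟩
      · refine Fin.cases hg (fun j => ?_) i
        exact hX0 j
      · have h1 : (fun i => v ((Fin.cons g X : Fin (r + 1) → K) i)) =
            (Fin.cons (v g) (fun i => v (X i)) : Fin (r + 1) → ℝ) := by
          funext i
          refine Fin.cases rfl (fun j => rfl) i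
        rw [h1, linearIndependent_finCons]
        exact ⟨hX, hg'⟩
  obtain ⟨X, hX0, hX⟩ := hall (n + 1)
  have := hle _ X hX0 hX
  omega

/-- **FIN1.** Log uniformization for the valuation rings of rank one with residue field `k`. -/
theorem lurV_all {k K : Type u} [Field k] [IsAlgClosed k] [Field K] [Algebra k K] {m : ℕ}
    (H : ∀ (Ω : Type u) [Field Ω] [Algebra k Ω] [IsAlgClosed Ω] (v : RVal Ω) (r : ℕ)
      (L : IntermediateField k Ω), CtxR k v m r → 0 < r → L.FG →
      (∀ g : Ω, IsAlgebraic L g) → LUs v (algebraMap k Ω).range L.toSubfield)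
    (hK : (⊤ : IntermediateField k K).FG)
    (V : ValuationSubring K) (hk : ∀ c : k, algebraMap k K c ∈ V) (hR : IsR1 V)
    (hres : ∀ f ∈ V, ∃ c : k, V.valuation (f - algebraMap k K c) < 1)
    (hm : Algebra.trdeg k K = m) : LUrV k V := by
  classical
  obtain ⟨v, w, hrel, hw, hV, hVpos, hpos⟩ := LUC.exists_entry V hR
  -- the standing assumptions
  have htriv : ∀ c : k, c ≠ 0 → v (algebraMap k K c) = 0 := by
    intro c hc
    have hc' : algebraMap k K c ≠ 0 := by rwa [_root_.map_ne_zero]
    have h1 := (hrel _ hc').1 (hk c)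
    have h2 := (hrel _ (inv_ne_zero hc')).1 (by rw [← map_inv₀]; exact hk c⁻¹)
    rw [v.map_inv hc'] at h2
    linarith
  have hc0 : Ctx0 k v := by
    refine ⟨htriv, fun g hg hg0 => ?_⟩
    obtain ⟨c, hc⟩ := hres g ((hrel g hg).2 hg0.ge)
    have hc1 := (hrel.lt_one_iff' _).1 hc
    refine ⟨c, ?_, hc1⟩
    rintro rfl
    rw [_root_.map_zero, sub_zero] at hc1
    have h1 := hc1 hg
    rw [hg0] at h1
    exact lt_irrefl _ h1
  obtain ⟨r, x, hx0, hx, hspan⟩ := exists_max_ind v htriv hm
  have hctx : CtxR k w m r := ctxR_of_ext v hc0 w hw hm x hx0 hx hspan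
  have hr : 0 < r := by
    rcases Nat.eq_zero_or_pos r with h0 | h0
    · exfalso
      subst h0
      obtain ⟨c, hc0, hc⟩ := hpos
      have h1 := hspan c hc0
      rw [Set.range_eq_empty, Submodule.span_empty, Submodule.mem_bot] at h1
      rw [h1] at hc
      exact lt_irrefl _ hc
    · exact h0
  let Ω : Type u := AlgebraicClosure K
  let ι : K →ₐ[k] Ω := IsScalarTower.toAlgHom k K Ω
  let L : IntermediateField k Ω := ι.fieldRange
  have hL : L.toSubfield = (algebraMap K Ω).fieldRange := by
    ext f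
    constructor
    · rintro ⟨g, hg⟩
      exact ⟨g, hg⟩
    · rintro ⟨g, hg⟩
      exact ⟨g, hg⟩
  have hLfg : L.FG := by
    obtain ⟨S, hS⟩ := hK
    refine ⟨S.image ι, ?_⟩
    rw [Finset.coe_image, ← IntermediateField.adjoin_map, hS]
    exact (AlgHom.fieldRange_eq_map ι).symm
  have halg : ∀ g : Ω, IsAlgebraic L g := by
    intro g
    obtain ⟨P, hP0, hP⟩ := (Algebra.IsAlgebraic.isAlgebraic g : IsAlgebraic K g)
    let j : K →+* L := (ι.rangeRestrict : K →ₐ[k] ι.range).toRingHom
    refine ⟨P.map j, ?_, ?_⟩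
    · exact (Polynomial.map_ne_zero_iff j.injective).2 hP0
    · rw [Polynomial.aeval_def, Polynomial.eval₂_map]
      exact hP
  have hfin := H Ω w r L hctx hr hLfg halg
  rw [hL] at hfin
  exact hfin.lurV hV hk

/-- FIN1: from the field `Ω` to abstract function fields. -/
theorem realCaseAll (b : ℕ → ℕ) (p : ℕ) (k : Type u) [Field k] [IsAlgClosed k]
    (h : MainAll b p k) : RealCaseAll b p k := by
  intro K _ _ hK V hk hR hres m hm hpm
  refine lur_of_lurV (lurV_all (m := m) (fun Ω _ _ _ v r L hctx hr hL halg => ?_) hK V hk hR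
    hres hm)
  exact h Ω v m r hctx hr hpm L hL halg

end Pool.Agent.ALLF
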