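import Pool.Agent.Lib.ALL_h26.Comp
import Pool.Agent.Lib.LU2H.Final

/-! # Project ALL: the final theorem for MP_b525bf_ag -/

set_option autoImplicit false

open AlgebraicGeometry CategoryTheory

namespace Pool.Agent.ALLF

open Pool.Agent.LU2G (LUr RealCaseR consts coarser IsSmoothAt const_mem)
open Pool.Agent.LU1G (IsGen)
open Pool.Agent.LU2H (fg_functionField all_steps AllGood)
open Pool.Agent.D2 (RealCase2)

/-- For an embedding of `k` in `K` and a valuation ring `V` of `K`: `K` contains a finitely
generated extension `F` of `k`, dense in `K` for the topology defined by `V`, such that `K` is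
separably generated over `F` and the valuation ring `V ∩ F` of `F` satisfies `CompsZ`. -/
def DenseZ (z : Prop) (b : ℕ → ℕ) (p : ℕ) {k K : Type} [Field k] [Field K] (ι : k →+* K)
    (V : ValuationSubring K) : Prop :=
  letI : Algebra k K := ι.toAlgebra
  ∃ F : IntermediateField k K, F.FG ∧
    (∀ a b : K, b ≠ 0 → ∃ c ∈ F, V.valuation (a - c) < V.valuation b) ∧
    (∃ s : Finset K, AlgebraicIndependent F (Subtype.val : s → K) ∧
      Algebra.IsSeparable (IntermediateField.adjoin F (s : Set K)) K) ∧
    CompsZ z b p (algebraMap k F) (V.comap (algebraMap F K))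

/-- The final theorem for MP_b525bf_ag. -/
theorem exists_smooth_centres3 {z : Prop} {b : ℕ → ℕ} (hb : Monotone b) (p : ℕ) (k : Type)
    [Field k] [IsAlgClosed k]
    (hreal : RealCaseR k) (hreal2 : RealCase2 p k) (hreal3 : RealCaseZ z b p k)
    (X : Scheme.{0}) [IsIntegral X] (f : X ⟶ Spec (CommRingCat.of k))
    [LocallyOfFiniteType f] (m : ℕ) (V : Fin m → ValuationSubring X.functionField)
    (hV : ∀ i, DenseZ z b p (LU2G.consts f) (V i))
    (c : ∀ i, Spec (CommRingCat.of (V i)) ⟶ X)
    (hc : ∀ i, Spec.map (CommRingCat.ofHom (algebraMap (V i) X.functionField)) ≫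
      c i = X.fromSpecStalk (genericPoint X)) :
    ∃ (Y : Scheme.{0}) (π : Y ⟶ X), IsIntegral Y ∧ IsProper π ∧
      (∀ W : X.Opens, (∀ (i : Fin m) (V' : ValuationSubring X.functionField) (h : V i ≤ V'),
        V' ≠ ⊤ → (LU2G.coarser h ≫ c i) (IsLocalRing.closedPoint V') ∈ W →
          LU2G.IsSmoothAt f ((LU2G.coarser h ≫ c i) (IsLocalRing.closedPoint V'))) →
          IsIso (π ∣_ W)) ∧
      ∀ i, ∃ c' : Spec (CommRingCat.of (V i)) ⟶ Y, c' ≫ π = c i ∧
        LU2G.IsSmoothAt (π ≫ f) (c' (IsLocalRing.closedPoint (V i))) := by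
  let _ : Algebra k X.functionField := (consts f).toAlgebra
  have hη : IsGen (K := X.functionField) (X.fromSpecStalk (genericPoint X)) := by
    refine ⟨RingEquiv.refl _, ?_⟩
    have h1 : (CommRingCat.ofHom (RingEquiv.refl X.functionField).toRingHom) =
        𝟙 (CommRingCat.of X.functionField) := rfl
    rw [h1, Spec.map_id]
    exact (Category.id_comp _).symm
  have hηf : X.fromSpecStalk (genericPoint X) ≫ f =
      Spec.map (CommRingCat.ofHom (algebraMap k X.functionField)) := by
    have h1 : CommRingCat.ofHom (algebraMap k X.functionField) =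
        Spec.preimage (X.fromSpecStalk (genericPoint X) ≫ f) := rfl
    rw [h1, Spec.map_preimage]
  have hK : (⊤ : IntermediateField k X.functionField).FG :=
    fg_functionField (K := X.functionField) f (X.fromSpecStalk (genericPoint X)) hη hηf
  refine all_steps k X.functionField m X f (X.fromSpecStalk (genericPoint X)) hη hηf V
    (fun i => ?_) c hc
  obtain ⟨F, hF, hdense, ⟨s, hs, hsep⟩, hdef⟩ := hV i
  exact allGood_of_dense3 hb p hreal hreal2 hreal3 hK (V i)
    (const_mem f (X.fromSpecStalk (genericPoint X)) hηf (V i) (c i) (hc i)) F hF hdense s hs hsep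
    hdef

/-- All valuation rings with a centre on `X`, in large characteristic. -/
theorem exists_smooth_centres_all {b : ℕ → ℕ} (hb : Monotone b) (p : ℕ) (k : Type) [Field k]
    [IsAlgClosed k] (hreal3 : RealCaseFull b p k)
    (X : Scheme.{0}) [IsIntegral X] (f : X ⟶ Spec (CommRingCat.of k))
    [LocallyOfFiniteType f] (n : ℕ)
    (hn : @Algebra.trdeg k X.functionField _ _ (consts f).toAlgebra = n) (hnp : b n < p)
    (m : ℕ) (V : Fin m → ValuationSubring X.functionField)
    (c : ∀ i, Spec (CommRingCat.of (V i)) ⟶ X)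
    (hc : ∀ i, Spec.map (CommRingCat.ofHom (algebraMap (V i) X.functionField)) ≫
      c i = X.fromSpecStalk (genericPoint X)) :
    ∃ (Y : Scheme.{0}) (π : Y ⟶ X), IsIntegral Y ∧ IsProper π ∧
      (∀ W : X.Opens, (∀ (i : Fin m) (V' : ValuationSubring X.functionField) (h : V i ≤ V'),
        V' ≠ ⊤ → (LU2G.coarser h ≫ c i) (IsLocalRing.closedPoint V') ∈ W →
          LU2G.IsSmoothAt f ((LU2G.coarser h ≫ c i) (IsLocalRing.closedPoint V'))) →
          IsIso (π ∣_ W)) ∧
      ∀ i, ∃ c' : Spec (CommRingCat.of (V i)) ⟶ Y, c' ≫ π = c i ∧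
        LU2G.IsSmoothAt (π ≫ f) (c' (IsLocalRing.closedPoint (V i))) := by
  let _ : Algebra k X.functionField := (consts f).toAlgebra
  have hη : IsGen (K := X.functionField) (X.fromSpecStalk (genericPoint X)) := by
    refine ⟨RingEquiv.refl _, ?_⟩
    have h1 : (CommRingCat.ofHom (RingEquiv.refl X.functionField).toRingHom) =
        𝟙 (CommRingCat.of X.functionField) := rfl
    rw [h1, Spec.map_id]
    exact (Category.id_comp _).symm
  have hηf : X.fromSpecStalk (genericPoint X) ≫ f =
      Spec.map (CommRingCat.ofHom (algebraMap k X.functionField)) := by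
    have h1 : CommRingCat.ofHom (algebraMap k X.functionField) =
        Spec.preimage (X.fromSpecStalk (genericPoint X) ≫ f) := rfl
    rw [h1, Spec.map_preimage]
  refine all_steps k X.functionField m X f (X.fromSpecStalk (genericPoint X)) hη hηf V
    (fun i => ?_) c hc
  exact allGood_full hb p hreal3 hn hnp (V i)
    (const_mem f (X.fromSpecStalk (genericPoint X)) hηf (V i) (c i) (hc i))

/-- The final theorem for MP_b525bf_ag: a valuation ring is arbitrary if `b n < p`, where `n` is the
dimension of `X`, and satisfies `DenseZ` otherwise. -/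
theorem exists_smooth_centres4 {b : ℕ → ℕ} (hb : Monotone b) (p : ℕ) (k : Type) [Field k]
    [IsAlgClosed k]
    (hreal : RealCaseR k) (hreal2 : RealCase2 p k) (hreal3 : RealCaseFull b p k)
    (X : Scheme.{0}) [IsIntegral X] (f : X ⟶ Spec (CommRingCat.of k))
    [LocallyOfFiniteType f] (n : ℕ)
    (hn : @Algebra.trdeg k X.functionField _ _ (consts f).toAlgebra = n)
    (m : ℕ) (V : Fin m → ValuationSubring X.functionField)
    (hV : ∀ i, b n < p ∨ DenseZ False b p (LU2G.consts f) (V i))
    (c : ∀ i, Spec (CommRingCat.of (V i)) ⟶ X)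
    (hc : ∀ i, Spec.map (CommRingCat.ofHom (algebraMap (V i) X.functionField)) ≫
      c i = X.fromSpecStalk (genericPoint X)) :
    ∃ (Y : Scheme.{0}) (π : Y ⟶ X), IsIntegral Y ∧ IsProper π ∧
      (∀ W : X.Opens, (∀ (i : Fin m) (V' : ValuationSubring X.functionField) (h : V i ≤ V'),
        V' ≠ ⊤ → (LU2G.coarser h ≫ c i) (IsLocalRing.closedPoint V') ∈ W →
          LU2G.IsSmoothAt f ((LU2G.coarser h ≫ c i) (IsLocalRing.closedPoint V'))) →
          IsIso (π ∣_ W)) ∧
      ∀ i, ∃ c' : Spec (CommRingCat.of (V i)) ⟶ Y, c' ≫ π = c i ∧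
        LU2G.IsSmoothAt (π ≫ f) (c' (IsLocalRing.closedPoint (V i))) := by
  let _ : Algebra k X.functionField := (consts f).toAlgebra
  have hη : IsGen (K := X.functionField) (X.fromSpecStalk (genericPoint X)) := by
    refine ⟨RingEquiv.refl _, ?_⟩
    have h1 : (CommRingCat.ofHom (RingEquiv.refl X.functionField).toRingHom) =
        𝟙 (CommRingCat.of X.functionField) := rfl
    rw [h1, Spec.map_id]
    exact (Category.id_comp _).symm
  have hηf : X.fromSpecStalk (genericPoint X) ≫ f =
      Spec.map (CommRingCat.ofHom (algebraMap k X.functionField)) := by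
    have h1 : CommRingCat.ofHom (algebraMap k X.functionField) =
        Spec.preimage (X.fromSpecStalk (genericPoint X) ≫ f) := rfl
    rw [h1, Spec.map_preimage]
  have hK : (⊤ : IntermediateField k X.functionField).FG :=
    fg_functionField (K := X.functionField) f (X.fromSpecStalk (genericPoint X)) hη hηf
  refine all_steps k X.functionField m X f (X.fromSpecStalk (genericPoint X)) hη hηf V
    (fun i => ?_) c hc
  rcases hV i with hnp | ⟨F, hF, hdense, ⟨s, hs, hsep⟩, hdef⟩
  · exact allGood_full hb p hreal3 hn hnp (V i)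
      (const_mem f (X.fromSpecStalk (genericPoint X)) hηf (V i) (c i) (hc i))
  · exact allGood_of_dense3 hb p hreal hreal2 hreal3.z hK (V i)
      (const_mem f (X.fromSpecStalk (genericPoint X)) hηf (V i) (c i) (hc i)) F hF hdense s hs hsep
      hdef

end Pool.Agent.ALLF
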