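import Pool.Agent.Lib.ALL_h26.FinL
import Pool.Agent.Lib.ALL_h26.Bound
import Pool.Agent.Lib.D2.FIN3
import Pool.Agent.Lib.D2.Main
import Pool.Agent.Lib.LU2_h15z.Final

/-!
# The final form for MP_5b7a2c_ag
-/

set_option autoImplicit false

namespace Pool.Agent.ALLF

open Pool.Agent.LU2G Pool.Agent.D2

/-- The condition on the rank one components of the valuation ring `V` of `K`, over `k`: if
`V ⊆ V₁ ⊂ V₂` are valuation rings with nothing between `V₁` and `V₂`, and `d` is the transcendence
degree over `k` of the residue field of `V₂` (the dimension of the component), then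
`(d + 1) * 2 ^ (3 * d - 1) * (d!) ^ 2 < p`, or `d` is at most the sum of the transcendence degree
of the residue field of `V₁`, of the rational rank of the value group `V₂ˣ / V₁ˣ`, and of one, or
the residue field of `V₁` is algebraic over `k`, `d` is at most the rational rank of `V₂ˣ / V₁ˣ`
plus two, and `2 ^ d * d! < p`. -/
def SmallComponents (p : ℕ) {k K : Type} [Field k] [Field K] (ι : k →+* K)
    (V : ValuationSubring K) : Prop :=
  ∀ V₁ V₂ : ValuationSubring K, V ≤ V₁ → V₁ ⋖ V₂ →
    ∃ (h₁ : ∀ a, ι a ∈ V₁) (h₂ : ∀ a, ι a ∈ V₂),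
      (∃ d : ℕ, resDegree ι V₂ h₂ = d ∧ (d + 1) * 2 ^ (3 * d - 1) * d.factorial ^ 2 < p) ∨
      resDegree ι V₂ h₂ ≤ resDegree ι V₁ h₁ + compRank V₁ V₂ + 1 ∨
      (resDegree ι V₁ h₁ = 0 ∧ ∃ d : ℕ, resDegree ι V₂ h₂ = d ∧
        (d : Cardinal) ≤ compRank V₁ V₂ + 2 ∧ 2 ^ d * d.factorial < p)

theorem SmallComponents.compsZ {p : ℕ} {k K : Type} [Field k] [Field K] {ι : k →+* K}
    {V : ValuationSubring K} (h : SmallComponents p ι V) : CompsZ False dimBound p ι V := by
  intro V₁ V₂ h₁ h₂
  obtain ⟨a, b, h⟩ := h V₁ V₂ h₁ h₂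
  refine ⟨a, b, ?_⟩
  rcases h with ⟨d, hd, hp⟩ | h | h
  · exact Or.inr (Or.inr ⟨fun h => h.elim, d, hd, hp⟩)
  · exact Or.inl h
  · exact Or.inr (Or.inl h)

/-- The final form, from the real case. -/
theorem logUniformizable_large (p : ℕ) [Fact p.Prime] (k : Type) [Field k] [IsAlgClosed k]
    [CharP k p] (hreal : RealCaseFull dimBound p k)
    (A : Type) [CommRing A] [IsDomain A] [Algebra k A] [Algebra.EssFiniteType k A]
    (V : ValuationSubring (FractionRing A)) (hV : ∀ a : A, algebraMap A (FractionRing A) a ∈ V)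
    (h : (∃ n : ℕ, Algebra.trdeg k (FractionRing A) = n ∧
        (n + 1) * 2 ^ (3 * n - 1) * n.factorial ^ 2 < p) ∨
      ∃ F : IntermediateField k (FractionRing A), F.FG ∧
        (∀ a b : FractionRing A, b ≠ 0 → ∃ c ∈ F, V.valuation (a - c) < V.valuation b) ∧
        (∃ s : Finset (FractionRing A),
          AlgebraicIndependent F (Subtype.val : s → FractionRing A) ∧
          Algebra.IsSeparable (IntermediateField.adjoin F (s : Set (FractionRing A)))
            (FractionRing A)) ∧
        SmallComponents p (algebraMap k F) (V.comap (algebraMap F (FractionRing A)))) :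
    LogUniformizable V := by
  rcases h with ⟨n, hn, hp⟩ | ⟨F, hF, hdense, ⟨s, hs, hsep⟩, hdef⟩
  · exact logUniformizable_all dimBound_mono p k (Pool.Agent.LU2.realCaseR p Fact.out)
      (Pool.Agent.D2.realCase2 p Fact.out k (Pool.Agent.D2.main2 p Fact.out k)) hreal A n hn hp V hV
  · exact logUniformizable_dense3 p k (Pool.Agent.LU2.realCaseR p Fact.out)
      (Pool.Agent.D2.realCase2 p Fact.out k (Pool.Agent.D2.main2 p Fact.out k)) hreal.z A V hV F hF
      hdense s hs hsep hdef.compsZ

end Pool.Agent.ALLF
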