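import Pool.Agent.Lib.ALL5.Fr
import Pool.Agent.Lib.ALL.Iface

/-!
# PROJECT ALL, real valuations: the induction (7I) (after helper99's any rank version)

`embAll_of : XStmt → YStmt → ZStmt → EmbAll` and the induction on the transcendence degree.
-/

set_option autoImplicit false

open Polynomial

namespace Pool.Agent.ALL

open Pool.Agent.H15JM (RVal)
open Pool.Agent.LU1 (VPos locv FracIs fixO locv_mono le_locv locv_field locv_locv)

universe u

section

variable {k Ω : Type u} [Field k] [Field Ω] [Algebra k Ω] {v : RVal Ω} {n r D : ℕ}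

namespace Ind

theorem isIntegral_mono {R S : Subalgebra k Ω} (h : R ≤ S) {f : Ω} (hf : IsIntegral R f) :
    IsIntegral S f := by
  obtain ⟨P, hP, hPf⟩ := hf
  refine ⟨P.map (Subalgebra.inclusion h).toRingHom, hP.map _, ?_⟩
  rw [Polynomial.eval₂_map]
  exact hPf

theorem ICl_mono {R S : Subalgebra k Ω} (h : R ≤ S) (E : IntermediateField k Ω) :
    ICl v R E ≤ ICl v S E :=
  locv_mono fun _ hf => ⟨hf.1, isIntegral_mono h hf.2⟩

theorem ICl_field {R : Subalgebra k Ω} {E : IntermediateField k Ω} : ∀ g ∈ ICl v R E, g ∈ E :=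
  locv_field fun _ hf => hf.1

theorem mem_ICl {R : Subalgebra k Ω} {E : IntermediateField k Ω} {a : Ω} (ha : a ∈ E)
    (hi : IsIntegral R a) : a ∈ ICl v R E := le_locv _ ⟨ha, hi⟩

theorem le_ICl {R : Subalgebra k Ω} {E : IntermediateField k Ω} (h : ∀ a ∈ R, a ∈ E) :
    R ≤ ICl v R E := fun a ha =>
  mem_ICl (h a ha) (isIntegral_algebraMap (R := R) (A := Ω) (x := ⟨a, ha⟩))

/-- Clearing the denominators of an integral equation. -/
theorem exists_den {R R' : Subalgebra k Ω} (P : Ω → Prop) (h1 : P 1)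
    (hmul : ∀ a b, P a → P b → P (a * b))
    (hden : ∀ f ∈ R', ∃ a ∈ R, ∃ b ∈ R, P b ∧ b ≠ 0 ∧ f = a / b) {A : Ω} (hA : IsIntegral R' A) :
    ∃ b ∈ R, P b ∧ b ≠ 0 ∧ IsIntegral R (b * A) := by
  classical
  obtain ⟨Q, hQ, hQ0⟩ := hA
  have hc : ∀ i, ∃ a ∈ R, ∃ b ∈ R, P b ∧ b ≠ 0 ∧ (Q.coeff i : Ω) = a / b := fun i =>
    hden _ (Q.coeff i).2
  choose a ha b hb hPb hb0 hab using hc
  set T : Polynomial Ω := Q.map (algebraMap R' Ω) with hT
  have hTm : T.Monic := hQ.map _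
  have hTc : ∀ i, T.coeff i = a i / b i := fun i => by
    rw [hT, Polynomial.coeff_map, ← hab]
    rfl
  have hT0 : T.eval A = 0 := by
    rw [hT, Polynomial.eval_map]
    exact hQ0
  set d : Ω := ∏ i ∈ Finset.range (T.natDegree + 1), b i with hd
  have hd0 : d ≠ 0 := Finset.prod_ne_zero_iff.2 fun i _ => hb0 i
  have hPd : ∀ s : Finset ℕ, P (∏ i ∈ s, b i) := by
    intro s
    induction s using Finset.induction_on with
    | empty => rw [Finset.prod_empty]; exact h1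
    | insert i s hi ih => rw [Finset.prod_insert hi]; exact hmul _ _ (hPb i) ih
  have hdR : d ∈ R := prod_mem fun i _ => hb i
  have hcd : ∀ i ≤ T.natDegree, T.coeff i * d ∈ R := by
    intro i hi
    have hmem : i ∈ Finset.range (T.natDegree + 1) := Finset.mem_range.2 (by omega)
    have h2 : d = b i * ∏ j ∈ (Finset.range (T.natDegree + 1)).erase i, b j :=
      (Finset.mul_prod_erase _ _ hmem).symm
    have h3 : T.coeff i * d = a i * ∏ j ∈ (Finset.range (T.natDegree + 1)).erase i, b j := by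
      rw [hTc i, h2, ← mul_assoc, div_mul_cancel₀ _ (hb0 i)]
    rw [h3]
    exact mul_mem (ha i) (prod_mem fun j _ => hb j)
  have hscal : (T.scaleRoots d) ∈ Polynomial.lifts (algebraMap R Ω) := by
    rw [Polynomial.lifts_iff_coeff_lifts]
    intro i
    rw [coeff_scaleRoots]
    rcases lt_trichotomy i T.natDegree with h2 | h2 | h2
    · obtain ⟨e, he⟩ : ∃ e, T.natDegree - i = e + 1 := ⟨T.natDegree - i - 1, by omega⟩
      rw [he, pow_succ', ← mul_assoc]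
      exact ⟨⟨_, mul_mem (hcd i h2.le) (pow_mem hdR e)⟩, rfl⟩
    · rw [h2, Nat.sub_self, pow_zero, mul_one, hTm.coeff_natDegree]
      exact ⟨1, map_one _⟩
    · rw [coeff_eq_zero_of_natDegree_lt h2, zero_mul]
      exact ⟨0, map_zero _⟩
  obtain ⟨q, hq, -, hqm⟩ := Polynomial.lifts_and_natDegree_eq_and_monic hscal
    ((monic_scaleRoots_iff d).2 hTm)
  refine ⟨d, hdR, hPd _, hd0, q, hqm, ?_⟩
  rw [← Polynomial.eval_map, hq]
  have h2 := scaleRoots_eval₂_mul (p := T) (RingHom.id Ω) A d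
  rw [RingHom.id_apply, eval₂_id, eval₂_id, hT0, mul_zero] at h2
  exact h2

end Ind

open Ind

/-- **7I**: the three blocks give embedded local uniformization. -/
theorem emb_of_XD [IsAlgClosed Ω] {p : ℕ} {E : IntermediateField k Ω} {Z : Finset Ω}
    (_hgen : IntermediateField.adjoin k (Z : Set Ω) = E) {F : FR k v D}
    {K : IntermediateField k Ω} {N : IntermediateField K Ω} {H : Subgroup (N ≃ₐ[K] N)} {Q Q' : Ω}
    (xd : XD v p E Z F K N H Q Q') {F' C : FR k v D} (hF' : F.Le F') (hCR : C.R = ICl v F'.R E)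
    (hCΓ : ∀ γ ∈ F'.Γ, γ ∈ C.Γ) (hCχ : ∀ γ ∈ F'.Γ, C.Un (F'.χ γ / C.χ γ)) :
    FracIs C.R E ∧ (∀ z ∈ Z, C.Mono z) ∧
      ∀ f ∈ C.R, ∃ a ∈ Algebra.adjoin k (Z : Set Ω), ∃ b ∈ Algebra.adjoin k (Z : Set Ω),
        C.Mono b ∧ f = a / b := by
  classical
  -- the rings
  have hFK : ∀ f ∈ F.R, f ∈ E := fun f hf => xd.le (xd.frac.1 f hf)
  have hF'E : ∀ f ∈ F'.R, f ∈ E := by
    intro f hf
    obtain ⟨a, ha, b, hb, -, rfl⟩ := hF'.den f hf
    exact div_mem (hFK a ha) (hFK b hb)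
  have hF'C : F'.R ≤ C.R := by rw [hCR]; exact le_ICl hF'E
  have hFF' : ICl v F.R E ≤ C.R := by rw [hCR]; exact ICl_mono hF'.le E
  -- monomials
  have hUn' : ∀ {u : Ω}, F'.Un u → C.Un u := fun hu => ⟨hF'C hu.1, hu.2⟩
  have hχ' : ∀ γ ∈ F'.Γ, C.Mono (F'.χ γ) := fun γ hγ =>
    FR.mono_iff.2 ⟨γ, hCΓ γ hγ, _, hCχ γ hγ, by rw [mul_div_cancel₀ _ (C.χ_ne γ (hCΓ γ hγ))]⟩
  have hMono' : ∀ {f : Ω}, F'.Mono f → C.Mono f := by
    intro f hf
    obtain ⟨γ, hγ, u, hu, rfl⟩ := FR.mono_iff.1 hf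
    exact (hχ' γ hγ).mul (FR.Mono.un (hUn' hu))
  have hχ : ∀ γ ∈ F.Γ, C.Mono (F.χ γ) := fun γ hγ => hMono' (hF'.χ_mono hγ)
  have hMI : ∀ {f : Ω}, F.MonoIn (ICl v F.R E) f → C.Mono f := by
    rintro f ⟨h0, h1, h2⟩
    have h3 : f / F.χ (v f) ≠ 0 := div_ne_zero h0 (F.χ_ne _ h1)
    have h4 : v (f / F.χ (v f)) = 0 := by
      rw [v.map_div h0 (F.χ_ne _ h1), F.χ_val _ h1, sub_self]
    have h5 := (hχ _ h1).mul (FR.Mono.un (⟨hFF' h2, h3, h4⟩ : C.Un (f / F.χ (v f))))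
    rwa [mul_div_cancel₀ _ (F.χ_ne _ h1)] at h5
  -- quotients of elements of `k[Z]` with monomial denominators
  let B : Subalgebra k Ω := Algebra.adjoin k (Z : Set Ω)
  have hDF : ∀ f ∈ ICl v F.R E, f ∈ Den B C := by
    intro f hf
    obtain ⟨a, ha, b, hb, hbm, rfl⟩ := xd.den f hf
    exact ⟨a, ha, b, hb, hMI hbm, rfl⟩
  have hDI : ∀ f ∈ icl F'.R E, f ∈ Den B C := by
    rintro f ⟨hfE, hf⟩
    obtain ⟨b, hb, hbm, hb0, hbf⟩ := exists_den (R := F.R) (R' := F'.R) (fun b => C.Mono b)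
      (FR.Mono.un FR.Un.one) (fun _ _ h h' => h.mul h') (by
        intro f hf
        obtain ⟨a, ha, b, hb, hbm, rfl⟩ := hF'.den f hf
        exact ⟨a, ha, b, hb, hMono' hbm, hbm.1, rfl⟩) hf
    have hbE := hFK b hb
    have h1 : b * f ∈ Den B C := hDF _ (mem_ICl (mul_mem hbE hfE) hbf)
    have h2 : b ∈ Den B C := hDF _ (le_ICl hFK hb)
    have h3 := (Den B C).mul_mem h1 (den_inv h2 hbm)
    rwa [mul_comm b f, mul_assoc, mul_inv_cancel₀ hb0, mul_one] at h3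
  refine ⟨⟨?_, ?_⟩, ?_, ?_⟩
  · intro f hf
    rw [hCR] at hf
    exact ICl_field f hf
  · intro g hg
    obtain ⟨y, hy0, hy⟩ := (F.alg g).exists_integral_multiple
    have hyR : ((y : F.R) : Ω) ≠ 0 := fun h0 => hy0 (Subtype.ext h0)
    have hyE := hFK _ y.2
    have h1 : ((y : F.R) : Ω) * g ∈ ICl v F.R E := mem_ICl (mul_mem hyE hg) hy
    exact ⟨_, hFF' h1, (y : Ω), hFF' (le_ICl hFK y.2), hyR, by rw [mul_div_cancel_left₀ _ hyR]⟩
  · intro z hz
    exact hMI (xd.mono z hz)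
  · intro f hf
    have hf' := hf
    rw [hCR] at hf'
    obtain ⟨a, ha, s, hs, hs0, hvs, rfl⟩ := hf'
    have hsC : C.Un s := ⟨by rw [hCR]; exact le_locv _ hs, hs0, hvs⟩
    have h1 := (Den B C).mul_mem (hDI a ha) (den_inv (hDI s hs) (FR.Mono.un hsC))
    rw [← div_eq_mul_inv] at h1
    exact h1

end

section

variable (k : Type u) [Field k]

theorem embAll_of (p n : ℕ) (hX : XStmt k p n) (hY : YStmt k p n) (hZ : ZStmt k p n) :
    EmbAll k n := by
  intro Ω _ _ _ v r D h hr hn E hfg halg Z hZ0 hgen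
  obtain ⟨F, K, N, hfd, hgal, H, Q, Q', xd⟩ := hX Ω v r D h hr hn E halg Z hZ0 hgen
  obtain ⟨F₁, hS, hF₁, κ, M, hM, hord⟩ := xd.ord
  obtain ⟨F', F₁', hF', hF₁', hS', hR', hmono'⟩ := hY Ω v r D h hr hn F F₁ hS (Q * Q') κ M hord hM
  have hF'N : ∀ f ∈ F'.R, f ∈ N.restrictScalars k := by
    intro f hf
    obtain ⟨a, ha, b, hb, -, rfl⟩ := hF'.den f hf
    exact div_mem (N.algebraMap_mem ⟨a, xd.frac.1 a ha⟩) (N.algebraMap_mem ⟨b, xd.frac.1 b hb⟩)
  have hmono : F'.MonoIn (ICl v F'.R (N.restrictScalars k)) (Q * Q') := by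
    obtain ⟨h0, h1, h2⟩ := hmono'
    rw [hS'.Γ_eq] at h1
    refine ⟨h0, h1, ?_⟩
    rw [← hS'.χ_eq _ h1]
    have h3 : F₁'.R ≤ ICl v F'.R (N.restrictScalars k) := by
      rw [hR']
      have h4 : Algebra.adjoin k ((F₁.R : Set Ω) ∪ F'.R) ≤
          ICl v F'.R (N.restrictScalars k) := by
        refine Algebra.adjoin_le (Set.union_subset ?_ ?_)
        · exact fun f hf => Ind.ICl_mono hF'.le _ (hF₁ hf)
        · exact fun f hf => Ind.le_ICl hF'N hf
      refine (locv_mono h4).trans ?_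
      exact le_of_eq (locv_locv _)
    exact h3 h2.1
  obtain ⟨C, hCR, hCΓ, hCχ, -⟩ := hZ Ω v r D h hr hn E Z F K N hfd hgal H Q Q' halg hZ0 hgen xd
    F' hF' hmono
  exact ⟨C, emb_of_XD hgen xd hF' hCR hCΓ hCχ⟩

/-- The induction on the transcendence degree. -/
theorem embAll_ind (p : ℕ) (hX : ∀ n, p0 n < p → XStmt k p n)
    (hY : ∀ n, EmbAll k (n - 1) → YStmt k p n) (hZ : ∀ n, p0 n < p → ZStmt k p n) :
    ∀ n, p0 n < p → EmbAll k n := by
  have hmono : ∀ n, p0 n ≤ p0 (n + 1) := by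
    intro n
    unfold p0
    refine Nat.mul_le_mul (Nat.mul_le_mul (by omega) (Nat.pow_le_pow_right (by norm_num)
      (by omega))) (Nat.pow_le_pow_left (Nat.factorial_le (by omega)) 2)
  intro n
  induction n with
  | zero =>
    intro _ Ω _ _ _ v r D h hr hn
    omega
  | succ n ih =>
    intro hp
    have h1 : EmbAll k n := ih (lt_of_le_of_lt (hmono n) hp)
    exact embAll_of k p (n + 1) (hX _ hp) (hY (n + 1) h1) (hZ _ hp)

end

end Pool.Agent.ALL
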