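import Pool.Agent.Lib.ALL_h25.RealFull
import Pool.Agent.Lib.ALL_h26.Conv
import Pool.Agent.Lib.ALL_h26.Fin1

/-!
# From embedded local uniformization to the real zero-dimensional case

`lurAt_of_emb` : one valuation with values in an ordered field.
`realCaseAll_of` : the real zero-dimensional case, from the statement `ALL.EmbAll` for real
valuations only.
-/

set_option autoImplicit false

namespace Pool.Agent.ALLF

open Pool.Agent.TAO Pool.Agent.LU2 Pool.Agent.LU2G Pool.Agent.ALL68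
open Pool.Agent.LU1 (FracIs)
open Pool.Agent.H15JM (RVal)
open Pool.Agent.D2 (Ctx0)

universe u w

/-- Embedded local uniformization of a zero-dimensional valuation ring `W`, with values in an
ordered field, gives log uniformization of the rank one valuation ring `V ⊇ W`. -/
theorem lurAt_of_emb {k K Ω : Type u} [Field k] [Field K] [Field Ω] [Algebra k K] [Algebra k Ω]
    {𝕂 : Type w} [Field 𝕂] [LinearOrder 𝕂] [IsStrictOrderedRing 𝕂] {v : OVal 𝕂 K}
    {w : OVal 𝕂 Ω} {m r D : ℕ} (ι : K →ₐ[k] Ω) {V W : ValuationSubring K} (hWV : W ≤ V)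
    (hV : IsR1 V) (hkW : ∀ c : k, algebraMap k K c ∈ W)
    (hres : ∀ f ∈ W, ∃ c : k, W.valuation (f - algebraMap k K c) < 1)
    (hv : RelO W v) (hw : ∀ f : K, f ≠ 0 → w (ι f) = v f) (hctx : CtxR k w m r)
    (hm : Algebra.trdeg k K = m) (hD : m = r + D) (hEmb : ALLO.Emb w D ι.fieldRange)
    {A : Subalgebra k K} (hfg : A.FG) (hAW : ∀ a ∈ A, a ∈ W) (hfrac : IsFrac A) (T : Finset K)
    (hT : ∀ t ∈ T, t ≠ 0) : LUrAt V A T := by
  classical
  let E : IntermediateField k Ω := ι.fieldRange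
  -- the finite set
  obtain ⟨S, hS⟩ := id hfg
  choose! tn htn td htd htd0 htq using fun t (_ : t ∈ T) => hfrac t
  obtain ⟨Z, hZ⟩ : ∃ Z : Finset K, Z = (S ∪ T.image tn ∪ T.image td).filter (· ≠ 0) := ⟨_, rfl⟩
  have hZA : ∀ z ∈ Z, z ∈ A := by
    intro z hz
    rw [hZ, Finset.mem_filter, Finset.mem_union, Finset.mem_union] at hz
    rcases hz.1 with (h | h) | h
    · rw [← hS]
      exact Algebra.subset_adjoin h
    · obtain ⟨t, ht, rfl⟩ := Finset.mem_image.1 h
      exact htn t ht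
    · obtain ⟨t, ht, rfl⟩ := Finset.mem_image.1 h
      exact htd t ht
  have hZadj : Algebra.adjoin k (Z : Set K) = A := by
    apply le_antisymm (Algebra.adjoin_le hZA)
    rw [← hS]
    refine Algebra.adjoin_le fun s hs => ?_
    by_cases h0 : s = 0
    · rw [h0]
      exact Subalgebra.zero_mem _
    · refine Algebra.subset_adjoin ?_
      rw [hZ]
      exact Finset.mem_coe.2 (Finset.mem_filter.2 ⟨Finset.mem_union_left _
        (Finset.mem_union_left _ hs), h0⟩)
  have hinj : Function.Injective ι := ι.toRingHom.injective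
  have hZ0 : ∀ z ∈ Z.image ι, z ≠ 0 := by
    intro z hz
    obtain ⟨y, hy, rfl⟩ := Finset.mem_image.1 hz
    rw [hZ, Finset.mem_filter] at hy
    exact fun h => hy.2 (hinj (by rw [h, map_zero]))
  have hZK : IntermediateField.adjoin k (Z : Set K) = ⊤ := by
    rw [eq_top_iff]
    intro f _
    obtain ⟨a, ha, c, hc, hc0, rfl⟩ := hfrac f
    have hle : A ≤ (IntermediateField.adjoin k (Z : Set K)).toSubalgebra := by
      rw [← hZadj]
      exact IntermediateField.algebra_adjoin_le_adjoin k _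
    exact div_mem (hle ha) (hle hc)
  have hZE : IntermediateField.adjoin k ((Z.image ι : Finset Ω) : Set Ω) = E := by
    rw [Finset.coe_image, ← IntermediateField.adjoin_map, hZK]
    exact (AlgHom.fieldRange_eq_map ι).symm
  obtain ⟨C, hCE, hCZ, hCden⟩ := hEmb (Z.image ι) hZ0 hZE
  have hmapA : Algebra.adjoin k ((Z.image ι : Finset Ω) : Set Ω) = A.map ι := by
    rw [Finset.coe_image, ← AlgHom.map_adjoin, hZadj]
  obtain ⟨C', hCR, hCM⟩ := exists_pull ι (fun f hf => hw f hf) C (fun f hf => by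
    obtain ⟨g, hg⟩ := hCE.1 f hf
    exact ⟨g, hg⟩) (exists_rankΓ hctx C)
  have hMZ : ∀ z ∈ Z, C'.Mono z := fun z hz => hCM z (hCZ _ (Finset.mem_image_of_mem _ hz))
  have hAR : A ≤ C'.R := by
    rw [← hZadj]
    refine Algebra.adjoin_le fun z hz => ?_
    obtain ⟨hz0, hzΓ, hzR⟩ := hMZ z hz
    have h1 : 0 ≤ v z := (hv z hz0).1 (hAW z (hZA z hz))
    have h2 : z = C'.χ (v z) * (z / C'.χ (v z)) := (mul_div_cancel₀ _ (C'.χ_ne _ hzΓ)).symm
    rw [h2]
    exact C'.R.mul_mem (C'.χ_mem _ hzΓ h1) hzR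
  refine lurAt_of_frame hWV hV hkW hres hv (by rw [hm, hD]) C' hfg hfrac hAR ?_ T ?_
  · intro f hf
    obtain ⟨a, ha, c, hc, hcM, hac⟩ := hCden (ι f) ((hCR f).1 hf)
    rw [hmapA] at ha hc
    obtain ⟨a', ha', rfl⟩ := ha
    obtain ⟨c', hc', rfl⟩ := hc
    refine ⟨a', ha', c', hc', hCM _ hcM, hinj ?_⟩
    rw [map_div₀]
    exact hac
  · intro t ht
    have htd0' : td t ≠ 0 := htd0 t ht
    have htn0 : tn t ≠ 0 := by
      intro h
      apply hT t ht
      rw [htq t ht, h, zero_div]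
    rw [htq t ht]
    refine mono_div (hMZ _ ?_) (hMZ _ ?_)
    · rw [hZ]
      exact Finset.mem_filter.2 ⟨Finset.mem_union_left _ (Finset.mem_union_right _
        (Finset.mem_image_of_mem _ ht)), htn0⟩
    · rw [hZ]
      exact Finset.mem_filter.2 ⟨Finset.mem_union_right _ (Finset.mem_image_of_mem _ ht), htd0'⟩

/-- The real zero-dimensional case, from embedded local uniformization for real valuations. -/
theorem realCaseAll_of {b : ℕ → ℕ} {p : ℕ} {k : Type u} [Field k] [IsAlgClosed k]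
    (H : ∀ n : ℕ, b n < p → ALL.EmbAll k n) : RealCaseAll b p k := by
  classical
  intro K _ _ hK V hk hR hres m hm hp A hfg hA hfrac T hT
  obtain ⟨v, w, hrel, hw, hV, hVpos, hpos⟩ := LUC.exists_entry V hR
  -- the standing assumptions
  have htriv : ∀ c : k, c ≠ 0 → v (algebraMap k K c) = 0 := by
    intro c hc
    have hc' : algebraMap k K c ≠ 0 := by rwa [_root_.map_ne_zero]
    have h1 := (hrel _ hc').1 (hk c)
    have h2 := (hrel _ (inv_ne_zero hc')).1 (by rw [← map_inv₀]; exact hk c⁻¹)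
    rw [v.map_inv hc'] at h2
    linarith
  have hc0 : Ctx0 k v := by
    refine ⟨htriv, fun g hg hg0 => ?_⟩
    obtain ⟨c, hc⟩ := hres g ((hrel g hg).2 hg0.ge)
    have hc1 := (hrel.lt_one_iff' _).1 hc
    refine ⟨c, ?_, hc1⟩
    rintro rfl
    rw [_root_.map_zero, sub_zero] at hc1
    have h1 := hc1 hg
    rw [hg0] at h1
    exact lt_irrefl _ h1
  obtain ⟨r, x, hx0, hx, hspan⟩ := exists_max_ind v htriv hm
  have hctx : TA.CtxR k w m r := ctxR_of_ext v hc0 w hw hm x hx0 hx hspan
  have hr : 0 < r := by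
    rcases Nat.eq_zero_or_pos r with h0 | h0
    · exfalso
      subst h0
      obtain ⟨c, hc0, hc⟩ := hpos
      have h1 := hspan c hc0
      rw [Set.range_eq_empty, Submodule.span_empty, Submodule.mem_bot] at h1
      rw [h1] at hc
      exact lt_irrefl _ hc
    · exact h0
  have hrm : r ≤ m := by
    have h1 := (TA.algInd_of_val htriv hx0 hx).lift_cardinalMk_le_trdeg
    rw [hm] at h1
    simpa using h1
  obtain ⟨D, hD⟩ := Nat.exists_eq_add_of_le hrm
  let Ω : Type u := AlgebraicClosure K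
  let ι : K →ₐ[k] Ω := IsScalarTower.toAlgHom k K Ω
  have hLfg : ∃ S : Finset Ω, ι.fieldRange = IntermediateField.adjoin k (S : Set Ω) := by
    obtain ⟨S, hS⟩ := hK
    refine ⟨S.image ι, ?_⟩
    rw [Finset.coe_image, ← IntermediateField.adjoin_map, hS]
    exact AlgHom.fieldRange_eq_map ι
  have halg : ∀ g : Ω, IsAlgebraic ι.fieldRange g := by
    intro g
    obtain ⟨P, hP0, hP⟩ := (Algebra.IsAlgebraic.isAlgebraic g : IsAlgebraic K g)
    let j : K →+* ι.fieldRange := (ι.rangeRestrict : K →ₐ[k] ι.range).toRingHom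
    refine ⟨P.map j, ?_, ?_⟩
    · exact (Polynomial.map_ne_zero_iff j.injective).2 hP0
    · rw [Polynomial.aeval_def, Polynomial.eval₂_map]
      exact hP
  have hE : ALL.Emb w D ι.fieldRange := H m hp Ω w r D hctx hr hD ι.fieldRange hLfg halg
  refine lurAt_of_emb (v := ofR v) (w := ofR w) (r := r) (D := D) ι le_rfl hR hk hres ?_ ?_
    (ctxR_ofR hctx) hm hD (emb_ofR hE) hfg hA hfrac T hT
  · exact fun f hf => hrel f hf
  · exact fun f hf => hw f hf

end Pool.Agent.ALLF
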