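import Pool.Agent.Lib.ALL_h26.RealEmb
import Pool.Agent.Lib.ALL_h26.Ind
import Pool.Agent.Lib.ALL_h26.Bound
import Pool.Agent.Lib.ALLX.XFinal
import Pool.Agent.Lib.ALL5.YReal

/-!
# The real zero-dimensional case in large characteristic, from block Z
-/

set_option autoImplicit false

namespace Pool.Agent.ALLF

universe u

theorem dimBound_eq (n : ℕ) : dimBound n = ALL.p0 n := rfl

/-- Embedded local uniformization for real zero-dimensional valuations, from block Z. -/
theorem embAll_ofZ (k : Type u) [Field k] [IsAlgClosed k] (p : ℕ) [hp : Fact p.Prime] [CharP k p]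
    (hZ : ∀ n, ALL.p0 n < p → ALL.ZStmt k p n) : ∀ n, ALL.p0 n < p → ALL.EmbAll k n :=
  ALL.embAll_ind k p (fun n hn => ALL.xstmt k p n hp.out hn) (fun n hE => ALL.yStmt k p n hE) hZ

/-- The real zero-dimensional case, from block Z. -/
theorem realCaseAll_ofZ (k : Type u) [Field k] [IsAlgClosed k] (p : ℕ) [Fact p.Prime] [CharP k p]
    (hZ : ∀ n, ALL.p0 n < p → ALL.ZStmt k p n) : RealCaseAll dimBound p k :=
  realCaseAll_of (embAll_ofZ k p hZ)

end Pool.Agent.ALLF
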