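import Pool.Agent.Lib.ALL_h26.RealMain
import Pool.Agent.Lib.ALL_h18.ZMain

/-!
# The real zero-dimensional case in large characteristic
-/

set_option autoImplicit false

namespace Pool.Agent.ALLF

universe u

/-- Embedded local uniformization for real zero-dimensional valuations. -/
theorem embAll_real (k : Type u) [Field k] [IsAlgClosed k] (p : ℕ) [hp : Fact p.Prime]
    [CharP k p] : ∀ n, ALL.p0 n < p → ALL.EmbAll k n :=
  embAll_ofZ k p fun n _ => ALL_h18.zStmt k p n

/-- The real zero-dimensional case. -/
theorem realCaseAll_p0 (k : Type u) [Field k] [IsAlgClosed k] (p : ℕ) [Fact p.Prime]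
    [CharP k p] : RealCaseAll dimBound p k :=
  realCaseAll_of (embAll_real k p)

end Pool.Agent.ALLF

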